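import Pool.Agent.helper62.VN.SpecE

/-!
# MP_07c750 (QUE), project VN, block 5, row NAV: averages along stable pairs
-/

set_option autoImplicit false

open scoped MatrixGroups ContDiff Topology UpperHalfPlane
open UpperHalfPlane MeasureTheory Filter Set

namespace Pool.Agent.VNE

open Pool.Agent.RS Pool.Agent.VQE

theorem NAV_clamp (T : ℝ) : Continuous (fun t : ℝ => max 0 (min t T)) :=
  continuous_const.max (continuous_id.min continuous_const)

theorem NAV_mem {T : ℝ} (hT : 0 ≤ T) (t : ℝ) : max 0 (min t T) ∈ Icc (0 : ℝ) T :=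
  ⟨le_max_left _ _, max_le hT (min_le_right _ _)⟩

theorem NAV_eq {T t : ℝ} (ht : t ∈ Icc (0 : ℝ) T) : max 0 (min t T) = t := by
  rw [min_eq_left ht.2, max_eq_right ht.1]

theorem NAV_exp {μ : ℝ} (hμ : 0 < μ) (c T : ℝ) : ∫ t in (0 : ℝ)..T, c * Real.exp (-(μ * t)) =
    c * (1 / μ) * (1 - Real.exp (-(μ * T))) := by
  have h : ∀ t ∈ uIcc (0 : ℝ) T, HasDerivAt
      (fun t : ℝ => c * (1 / μ) * (1 - Real.exp (-(μ * t))))
      (c * Real.exp (-(μ * t))) t := by
    intro t _
    have h1 : HasDerivAt (fun t : ℝ => -(μ * t)) (-(μ * 1)) t :=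
      ((hasDerivAt_id t).const_mul μ).neg
    have h2 := ((h1.exp.const_sub 1).const_mul (c * (1 / μ)))
    have e : c * (1 / μ) * -(Real.exp (-(μ * t)) * -(μ * 1)) =
        c * Real.exp (-(μ * t)) := by
      field_simp
    rw [e] at h2
    exact h2
  rw [intervalIntegral.integral_eq_sub_of_hasDerivAt h
    (Continuous.intervalIntegrable (by fun_prop) _ _)]
  simp

theorem NAV_expb {μ : ℝ} (hμ : 0 < μ) (c T : ℝ) (hc : 0 ≤ c) : ∫ t in (0 : ℝ)..T, c * Real.exp (-(μ * t)) ≤ c * (1 / μ) := by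
  rw [NAV_exp hμ]
  have e1 : 1 - Real.exp (-(μ * T)) ≤ 1 := by linarith [Real.exp_pos (-(μ * T))]
  have e2 : c * (1 / μ) * (1 - Real.exp (-(μ * T))) ≤ c * (1 / μ) * 1 :=
    mul_le_mul_of_nonneg_left e1 (by positivity)
  linarith

theorem NAV_proof (h1 : VQE.NMB_stmt) (h2 : NCH_stmt) (h3 : NST_stmt) (h4 : NSY_stmt) : NAV_stmt := by
  intro K hK
  obtain ⟨C1, hC1, hch⟩ := h2 K hK
  obtain ⟨C2, μ, ε2, hC2, hμ, hε2, hst⟩ := h3 K hK
  obtain ⟨ε3, hε3, hsy⟩ := h4 K hK
  have hC1p : 0 < C1 := by linarith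
  have hC2p : 0 < C2 := by linarith
  have hCp : 0 < C1 * C2 * (1 / μ) := by positivity
  refine ⟨1 + 2 * (C1 * C2 * (1 / μ)), min (1 / C1) (min ε2 (min ε3 1)), by linarith,
    lt_min (by positivity) (lt_min hε2 (lt_min hε3 one_pos)), ?_⟩
  intro Γ ε L X h g J W hε hε0 hL hX hT hM T hT0
  have a1 : ε ≤ 1 / C1 := hε0.trans (min_le_left _ _)
  have a2 : ε ≤ ε2 := hε0.trans ((min_le_right _ _).trans (min_le_left _ _))
  have a3 : ε ≤ ε3 := hε0.trans ((min_le_right _ _).trans ((min_le_right _ _).trans (min_le_left _ _)))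
  have a4 : ε ≤ 1 := hε0.trans ((min_le_right _ _).trans ((min_le_right _ _).trans (min_le_right _ _)))
  obtain ⟨_, _, _, hc4, _, cp, cq, cm, ck, hc7⟩ := hch X hX
  have hP := hM.pr T
  have hdec := (hst ε X g J W hε a2 hX hM).1
  have hv0 : |J 0| + |W 0| ≤ ε := hP.bd 0 ⟨le_rfl, hT0.le⟩
  -- sizes
  have hv : ∀ t, 0 ≤ t → |J t| + |W t| ≤ C2 * Real.exp (-(μ * t)) := by
    intro t ht
    refine (hdec t ht).1.trans ?_
    have e1 : 0 < C2 * Real.exp (-(μ * t)) := by positivity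
    calc C2 * Real.exp (-(μ * t)) * (|J 0| + |W 0|) ≤ C2 * Real.exp (-(μ * t)) * 1 :=
          mul_le_mul_of_nonneg_left (hv0.trans a4) e1.le
      _ = _ := mul_one _
  have hvs : ∀ t ∈ Icc (0 : ℝ) T, |J t| + |W t| ≤ 1 / C1 := fun t ht => (hP.bd t ht).trans a1
  have cJ : ContinuousOn J (Icc 0 T) := fun t ht => (hP.dJ t ht).continuousAt.continuousWithinAt
  have cW : ContinuousOn W (Icc 0 T) := fun t ht => (hP.dW t ht).continuousAt.continuousWithinAt
  have cs := (hc7 T g J W cJ cW hvs).1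
  set S : ℝ → ℝ := fun t => sj X (X.f (max 0 (min t T)) g) (J (max 0 (min t T))) (W (max 0 (min t T))) with hS
  have cS : Continuous S := cs.comp_continuous (NAV_clamp T) (fun t => NAV_mem hT0.le t)
  have hS0 : ∀ t ∈ Icc (0 : ℝ) T, S t = sj X (X.f t g) (J t) (W t) := by
    intro t ht
    simp only [hS, NAV_eq ht]
  have hS1 : ∀ t ∈ Icc (0 : ℝ) T, |S t - 1| ≤ C1 * (|J t| + |W t|) := by
    intro t ht
    rw [hS0 t ht]
    exact (hc4 (X.f t g) (J t) (W t) (hvs t ht)).2.2.1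
  set τ : ℝ → ℝ := fun t => ∫ s in (0 : ℝ)..t, S s with hτ
  have hτd : ∀ t, HasDerivAt τ (S t) t := fun t =>
    intervalIntegral.integral_hasDerivAt_right (cS.intervalIntegrable _ _)
      (cS.stronglyMeasurableAtFilter _ _) cS.continuousAt
  have hτ0 : τ 0 = 0 := by simp [hτ]
  have hτs : ∀ t ∈ Icc (0 : ℝ) T, τ t = ∫ s in (0 : ℝ)..t, sj X (X.f s g) (J s) (W s) := by
    intro t ht
    refine intervalIntegral.integral_congr fun s hs => ?_
    rw [uIcc_of_le ht.1] at hs
    exact hS0 s ⟨hs.1, hs.2.trans ht.2⟩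
  set g2 : SL(2, ℝ) := g * pj X g (J 0) (W 0) with hg2
  have hP3 : PR ε3 X g T J W := ⟨hP.dJ, hP.dW, fun t ht => (hP.bd t ht).trans a3⟩
  have hsyn : ∀ t ∈ Icc (0 : ℝ) T, X.f (τ t) g2 = X.f t g * pj X (X.f t g) (J t) (W t) := by
    intro t ht
    rw [hτs t ht]
    exact hsy X g T J W hX hP3 t ht
  have hWc := hX.flw.cont
  have cH : Continuous (fun t : ℝ => h (X.f t g2)) :=
    hT.cont.comp (hWc.comp (continuous_id.prodMk continuous_const))
  have cH1 : Continuous (fun t : ℝ => h (X.f t g)) :=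
    hT.cont.comp (hWc.comp (continuous_id.prodMk continuous_const))
  have cτ : Continuous τ := continuous_iff_continuousAt.2 fun t => (hτd t).continuousAt
  -- change of variables
  have hcv : ∫ t in (0 : ℝ)..T, h (X.f (τ t) g2) * S t = ∫ s in (0 : ℝ)..τ T, h (X.f s g2) := by
    have e := intervalIntegral.integral_comp_mul_deriv (a := (0 : ℝ)) (b := T) (f := τ) (f' := S)
      (g := fun t : ℝ => h (X.f t g2)) (fun t _ => hτd t) cS.continuousOn cH
    rw [hτ0] at e
    exact e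
  have E1 : |(∫ t in (0 : ℝ)..T, h (X.f (τ t) g2) * S t) - ∫ t in (0 : ℝ)..T, h (X.f t g)| ≤
      ((L + 1) * C1 * C2) * (1 / μ) := by
    have cc : Continuous (fun t => h (X.f (τ t) g2) * S t) := (cH.comp cτ).mul cS
    rw [← intervalIntegral.integral_sub (cc.intervalIntegrable _ _) (cH1.intervalIntegrable _ _)]
    rw [← Real.norm_eq_abs]
    refine (intervalIntegral.norm_integral_le_of_norm_le
      (g := fun t => ((L + 1) * C1 * C2) * Real.exp (-(μ * t))) hT0.le ?_ ?_).trans ?_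
    · refine Filter.Eventually.of_forall fun t ht => ?_
      have ht0 : 0 ≤ t := ht.1.le
      have htI : t ∈ Icc (0 : ℝ) T := ⟨ht.1.le, ht.2⟩
      rw [Real.norm_eq_abs, hsyn t htI]
      have b1 := (hc4 (X.f t g) (J t) (W t) (hvs t htI)).1
      have a1 : |h (X.f t g * pj X (X.f t g) (J t) (W t)) - h (X.f t g)| ≤ L * (C1 * (|J t| + |W t|)) :=
        (hT.lip (X.f t g) _).trans (mul_le_mul_of_nonneg_left b1 hL)
      have a2 : |h (X.f t g * pj X (X.f t g) (J t) (W t)) * (S t - 1)| ≤ C1 * (|J t| + |W t|) := by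
        rw [abs_mul]
        calc |h (X.f t g * pj X (X.f t g) (J t) (W t))| * |S t - 1| ≤ 1 * |S t - 1| :=
              mul_le_mul_of_nonneg_right (hT.bd _) (abs_nonneg _)
          _ = |S t - 1| := one_mul _
          _ ≤ _ := hS1 t htI
      have e : h (X.f t g * pj X (X.f t g) (J t) (W t)) * S t - h (X.f t g) =
          (h (X.f t g * pj X (X.f t g) (J t) (W t)) - h (X.f t g)) + h (X.f t g * pj X (X.f t g) (J t) (W t)) * (S t - 1) := by
        ring
      rw [e]
      refine (abs_add_le _ _).trans ((add_le_add a1 a2).trans ?_)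
      calc L * (C1 * (|J t| + |W t|)) + C1 * (|J t| + |W t|) = ((L + 1) * C1) * (|J t| + |W t|) := by ring
        _ ≤ ((L + 1) * C1) * (C2 * Real.exp (-(μ * t))) :=
          mul_le_mul_of_nonneg_left (hv t ht0) (by positivity)
        _ = _ := by ring
    · exact Continuous.intervalIntegrable (by fun_prop) _ _
    · exact NAV_expb hμ _ T (by positivity)
  have E2 : |τ T - T| ≤ (C1 * C2) * (1 / μ) := by
    have e0 : τ T - T = ∫ t in (0 : ℝ)..T, (S t - 1) := by
      rw [intervalIntegral.integral_sub (cS.intervalIntegrable _ _)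
        (continuous_const.intervalIntegrable _ _)]
      simp [hτ]
    rw [e0, ← Real.norm_eq_abs]
    refine (intervalIntegral.norm_integral_le_of_norm_le
      (g := fun t => (C1 * C2) * Real.exp (-(μ * t))) hT0.le ?_ ?_).trans ?_
    · refine Filter.Eventually.of_forall fun t ht => ?_
      have ht0 : 0 ≤ t := ht.1.le
      have htI : t ∈ Icc (0 : ℝ) T := ⟨ht.1.le, ht.2⟩
      rw [Real.norm_eq_abs]
      refine (hS1 t htI).trans ?_
      calc C1 * (|J t| + |W t|) ≤ C1 * (C2 * Real.exp (-(μ * t))) :=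
            mul_le_mul_of_nonneg_left (hv t ht0) hC1p.le
        _ = _ := by ring
    · exact Continuous.intervalIntegrable (by fun_prop) _ _
    · exact NAV_expb hμ _ T (by positivity)
  have E3 : |∫ s in (τ T)..T, h (X.f s g2)| ≤ |T - τ T| := by
    have e := intervalIntegral.norm_integral_le_of_norm_le_const (a := τ T) (b := T) (C := 1)
      (f := fun s => h (X.f s g2)) (fun s _ => by rw [Real.norm_eq_abs]; exact hT.bd _)
    rw [Real.norm_eq_abs, one_mul] at e
    exact e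
  have E4 : (∫ s in (0 : ℝ)..T, h (X.f s g2)) =
      (∫ s in (0 : ℝ)..τ T, h (X.f s g2)) + ∫ s in (τ T)..T, h (X.f s g2) :=
    (intervalIntegral.integral_add_adjacent_intervals (cH.intervalIntegrable _ _)
      (cH.intervalIntegrable _ _)).symm
  have E5 : |(∫ s in (0 : ℝ)..T, h (X.f s g2)) - ∫ s in (0 : ℝ)..T, h (X.f s g)| ≤ (1 + 2 * (C1 * C2 * (1 / μ))) * (L + 1) := by
    rw [E4, ← hcv]
    have e : ((∫ t in (0 : ℝ)..T, h (X.f (τ t) g2) * S t) + ∫ s in (τ T)..T, h (X.f s g2)) -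
        (∫ s in (0 : ℝ)..T, h (X.f s g)) =
        ((∫ t in (0 : ℝ)..T, h (X.f (τ t) g2) * S t) - ∫ s in (0 : ℝ)..T, h (X.f s g)) +
        ∫ s in (τ T)..T, h (X.f s g2) := by ring
    rw [e]
    refine (abs_add_le _ _).trans ?_
    rw [abs_sub_comm T] at E3
    have hD : 0 < C1 * C2 * (1 / μ) := by positivity
    nlinarith
  rw [avf, avf, ← mul_sub, abs_mul, abs_of_pos (inv_pos.2 hT0), mul_comm, ← div_eq_mul_inv]
  exact div_le_div_of_nonneg_right E5 hT0.le

end Pool.Agent.VNE
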